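import Pool.Agent.H83.UE.Targets

/-!
# Row IT of the board uda_modules: the iterates are rational maps (helper67)
-/

set_option autoImplicit false

open Polynomial MeasureTheory Filter Topology Set
open scoped OnePoint ComplexConjugate ComplexOrder Laplacian ENNReal

open Pool.Agent.H83.UE

namespace Pool.Agent.H67.UDA

theorem hev_smul (D : ℕ) (A : ℂ[X]) (c : ℂ) (v : ℂ × ℂ) :
    hev D A (c * v.1, c * v.2) = c ^ D * hev D A v := by
  unfold hev
  rw [Finset.mul_sum]
  refine Finset.sum_congr rfl fun i hi => ?_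
  have hi' : i ≤ D := Nat.lt_succ_iff.1 (Finset.mem_range.1 hi)
  have h : c ^ D = c ^ i * c ^ (D - i) := by rw [← pow_add, Nat.add_sub_cancel' hi']
  rw [h]
  simp only [mul_pow]
  ring

theorem hev_one (D : ℕ) (A : ℂ[X]) (hA : A.natDegree ≤ D) (x : ℂ) :
    hev D A (x, 1) = A.eval x := by
  unfold hev
  rw [eval_eq_sum_range' (Nat.lt_succ_iff.2 hA)]
  refine Finset.sum_congr rfl fun i _ => ?_
  simp only [one_pow, mul_one]

theorem hev_ne (D : ℕ) (A : ℂ[X]) (hA : A.natDegree ≤ D) (v : ℂ × ℂ) (hv : v.2 ≠ 0) :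
    hev D A v = v.2 ^ D * A.eval (v.1 / v.2) := by
  have h := hev_smul D A v.2 (v.1 / v.2, 1)
  rw [hev_one D A hA] at h
  rw [← h]
  congr 1
  refine Prod.ext ?_ ?_
  · change v.1 = v.2 * (v.1 / v.2)
    rw [mul_div_cancel₀ _ hv]
  · change v.2 = v.2 * 1
    rw [mul_one]

theorem hev_zero (D : ℕ) (A : ℂ[X]) (x : ℂ) : hev D A (x, 0) = A.coeff D * x ^ D := by
  unfold hev
  rw [Finset.sum_eq_single D]
  · simp
  · intro i hi hne
    have hi' : i ≤ D := Nat.lt_succ_iff.1 (Finset.mem_range.1 hi)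
    have : D - i ≠ 0 := by omega
    change A.coeff i * x ^ i * (0 : ℂ) ^ (D - i) = 0
    rw [zero_pow this, mul_zero]
  · intro h
    exact absurd (Finset.mem_range.2 (Nat.lt_succ_self D)) h

theorem hsub_eval (d : ℕ) (A U V : ℂ[X]) (x : ℂ) :
    (hsub d A U V).eval x = hev d A (U.eval x, V.eval x) := by
  unfold hsub hev
  rw [eval_finsetSum]
  refine Finset.sum_congr rfl fun i _ => ?_
  simp only [eval_mul, eval_C, eval_pow]

theorem hsub_deg (d N : ℕ) (A U V : ℂ[X]) (hU : U.natDegree ≤ N) (hV : V.natDegree ≤ N) :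
    (hsub d A U V).natDegree ≤ d * N := by
  unfold hsub
  refine natDegree_sum_le_of_forall_le _ _ fun i hi => ?_
  have hi' : i ≤ d := Nat.lt_succ_iff.1 (Finset.mem_range.1 hi)
  refine le_trans (natDegree_mul_le_of_le (le_trans (natDegree_C_mul_le _ _)
    (natDegree_pow_le_of_le i hU)) (natDegree_pow_le_of_le (d - i) hV)) ?_
  rw [← add_mul, Nat.add_sub_cancel' hi']

theorem hsub_coeff (d N : ℕ) (A U V : ℂ[X]) (hU : U.natDegree ≤ N) (hV : V.natDegree ≤ N) :
    (hsub d A U V).coeff (d * N) = hev d A (U.coeff N, V.coeff N) := by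
  unfold hsub hev
  rw [finsetSum_coeff]
  refine Finset.sum_congr rfl fun i hi => ?_
  have hi' : i ≤ d := Nat.lt_succ_iff.1 (Finset.mem_range.1 hi)
  have h1 : d * N = i * N + (d - i) * N := by rw [← add_mul, Nat.add_sub_cancel' hi']
  have h2 : (C (A.coeff i) * U ^ i).natDegree ≤ i * N :=
    le_trans (natDegree_C_mul_le _ _) (natDegree_pow_le_of_le i hU)
  have h3 : (V ^ (d - i)).natDegree ≤ (d - i) * N := natDegree_pow_le_of_le (d - i) hV
  rw [h1, coeff_mul_add_eq_of_natDegree_le h2 h3, coeff_C_mul, coeff_pow_of_natDegree_le hU,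
    coeff_pow_of_natDegree_le hV]

theorem hev_hsub (d N : ℕ) (A U V : ℂ[X]) (hU : U.natDegree ≤ N) (hV : V.natDegree ≤ N)
    (w : ℂ × ℂ) : hev (d * N) (hsub d A U V) w = hev d A (hev N U w, hev N V w) := by
  by_cases hw : w.2 = 0
  · have h0 : w = (w.1, 0) := Prod.ext rfl hw
    rw [h0, hev_zero, hev_zero, hev_zero, hsub_coeff d N A U V hU hV]
    have h := hev_smul d A (w.1 ^ N) (U.coeff N, V.coeff N)
    have h2 : ((U.coeff N * w.1 ^ N, V.coeff N * w.1 ^ N) : ℂ × ℂ) =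
        (w.1 ^ N * U.coeff N, w.1 ^ N * V.coeff N) := by
      rw [mul_comm, mul_comm (V.coeff N)]
    rw [h2]
    change _ = hev d A (w.1 ^ N * (U.coeff N, V.coeff N).1, w.1 ^ N * (U.coeff N, V.coeff N).2)
    rw [h, ← pow_mul, mul_comm N d, mul_comm]
  · rw [hev_ne (d * N) _ (hsub_deg d N A U V hU hV) w hw, hsub_eval, hev_ne N U hU w hw,
      hev_ne N V hV w hw]
    have h := hev_smul d A (w.2 ^ N) (U.eval (w.1 / w.2), V.eval (w.1 / w.2))
    change _ = hev d A (w.2 ^ N * (U.eval (w.1 / w.2), V.eval (w.1 / w.2)).1,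
      w.2 ^ N * (U.eval (w.1 / w.2), V.eval (w.1 / w.2)).2)
    rw [h, ← pow_mul, mul_comm N d]

theorem coeff_ne {A : ℂ[X]} {d : ℕ} (hd : 1 ≤ d) (h : A.natDegree = d) : A.coeff d ≠ 0 := by
  have hA : A ≠ 0 := by
    intro h0
    rw [h0, natDegree_zero] at h
    omega
  rw [← h]
  exact leadingCoeff_ne_zero.2 hA

theorem F_ne {d : ℕ} (hd : 1 ≤ d) (g : RatMap d) (w : ℂ × ℂ) (hw : w ≠ 0) : g.F w ≠ 0 := by
  intro h
  have h1 : hev d g.P w = 0 := congrArg Prod.fst h
  have h2 : hev d g.Q w = 0 := congrArg Prod.snd h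
  by_cases hw2 : w.2 = 0
  · have h0 : w = (w.1, 0) := Prod.ext rfl hw2
    have hw1 : w.1 ≠ 0 := fun h3 => hw (Prod.ext h3 hw2)
    rw [h0, hev_zero] at h1 h2
    rcases g.deg with h3 | h3
    · rcases mul_eq_zero.1 h1 with h4 | h4
      · exact coeff_ne hd h3 h4
      · exact pow_ne_zero d hw1 h4
    · rcases mul_eq_zero.1 h2 with h4 | h4
      · exact coeff_ne hd h3 h4
      · exact pow_ne_zero d hw1 h4
  · rw [hev_ne d _ g.degP w hw2] at h1
    rw [hev_ne d _ g.degQ w hw2] at h2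
    have h3 := (isCoprime_iff_aeval_ne_zero_of_isAlgClosed ℂ ℂ g.P g.Q).1 g.coprime (w.1 / w.2)
    rw [coe_aeval_eq_eval] at h3
    rcases h3 with h3 | h3
    · exact (mul_ne_zero (pow_ne_zero d hw2) h3) h1
    · exact (mul_ne_zero (pow_ne_zero d hw2) h3) h2

theorem Fit_ne {d : ℕ} (hd : 1 ≤ d) (g : RatMap d) (n : ℕ) (w : ℂ × ℂ) (hw : w ≠ 0) :
    g.F^[n] w ≠ 0 := by
  induction n with
  | zero => exact hw
  | succ n ih =>
    rw [Function.iterate_succ_apply']
    exact F_ne hd g _ ih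

theorem it_aux {d : ℕ} (g : RatMap d) (n : ℕ) :
    (g.it n).1.natDegree ≤ d ^ n ∧ (g.it n).2.natDegree ≤ d ^ n ∧
    ∀ w : ℂ × ℂ, g.F^[n] w = (hev (d ^ n) (g.it n).1 w, hev (d ^ n) (g.it n).2 w) := by
  induction n with
  | zero =>
    refine ⟨?_, ?_, fun w => ?_⟩
    · change (X : ℂ[X]).natDegree ≤ _
      rw [natDegree_X, pow_zero]
    · change (1 : ℂ[X]).natDegree ≤ _
      rw [natDegree_one]
      exact Nat.zero_le _
    · rw [pow_zero]
      change w = (hev 1 X w, hev 1 1 w)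
      refine Prod.ext ?_ ?_
      · change w.1 = hev 1 X w
        unfold hev
        rw [Finset.sum_range_succ, Finset.sum_range_one]
        simp [coeff_X]
      · change w.2 = hev 1 1 w
        unfold hev
        rw [Finset.sum_range_succ, Finset.sum_range_one]
        simp [coeff_one]
  | succ n ih =>
    obtain ⟨hU, hV, hF⟩ := ih
    have hp : d ^ (n + 1) = d * d ^ n := by rw [pow_succ, mul_comm]
    refine ⟨?_, ?_, fun w => ?_⟩
    · rw [hp]
      exact hsub_deg d _ _ _ _ hU hV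
    · rw [hp]
      exact hsub_deg d _ _ _ _ hU hV
    · rw [Function.iterate_succ_apply', hF w, hp]
      change (hev d g.P _, hev d g.Q _) = (hev (d * d ^ n) (hsub d g.P (g.it n).1 (g.it n).2) w,
        hev (d * d ^ n) (hsub d g.Q (g.it n).1 (g.it n).2) w)
      rw [hev_hsub d _ _ _ _ hU hV, hev_hsub d _ _ _ _ hU hV]

theorem pf_IT : T_IT := by
  intro d hd g n
  obtain ⟨hU, hV, hF⟩ := it_aux g n
  refine ⟨hU, hV, ?_, ?_, hF⟩
  · by_contra hcon
    rw [not_or] at hcon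
    have h1 : (g.it n).1.coeff (d ^ n) = 0 :=
      coeff_eq_zero_of_natDegree_lt (lt_of_le_of_ne hU hcon.1)
    have h2 : (g.it n).2.coeff (d ^ n) = 0 :=
      coeff_eq_zero_of_natDegree_lt (lt_of_le_of_ne hV hcon.2)
    refine Fit_ne hd g n (1, 0) (fun h => one_ne_zero (congrArg Prod.fst h)) ?_
    rw [hF, hev_zero, hev_zero, h1, h2, zero_mul]
    rfl
  · rw [isCoprime_iff_aeval_ne_zero_of_isAlgClosed ℂ ℂ]
    intro a
    rw [coe_aeval_eq_eval]
    by_contra hcon
    rw [not_or, not_not, not_not] at hcon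
    refine Fit_ne hd g n (a, 1) (fun h => one_ne_zero (congrArg Prod.snd h)) ?_
    rw [hF, hev_one _ _ hU, hev_one _ _ hV, hcon.1, hcon.2]
    rfl

end Pool.Agent.H67.UDA
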