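import Pool.Agent.H67.UDA.NTR

/-!
# Row LOG of the board uda_modules: slow growth of the logarithmic integrals (helper67)
-/

set_option autoImplicit false

open Polynomial MeasureTheory Filter Topology Set
open scoped OnePoint ComplexConjugate ComplexOrder Laplacian ENNReal

open Pool.Agent.H83.UE

namespace Pool.Agent.H67.UDA

/-- the iterate as a rational map -/
noncomputable def pw {d : ℕ} (hd : 1 ≤ d) (g : RatMap d) (n : ℕ) : RatMap (d ^ n) where
  P := (g.it n).1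
  Q := (g.it n).2
  degP := (pf_IT d hd g n).1
  degQ := (pf_IT d hd g n).2.1
  deg := (pf_IT d hd g n).2.2.1
  coprime := (pf_IT d hd g n).2.2.2.1

theorem pw_F {d : ℕ} (hd : 1 ≤ d) (g : RatMap d) (n : ℕ) : (pw hd g n).F = g.F^[n] := by
  funext w
  exact ((pf_IT d hd g n).2.2.2.2 w).symm

theorem it_F {d : ℕ} (hd : 1 ≤ d) (g : RatMap d) (n : ℕ) :
    g.F^[n] = fun w => (hev (d ^ n) (g.it n).1 w, hev (d ^ n) (g.it n).2 w) := by
  funext w
  exact (pf_IT d hd g n).2.2.2.2 w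

theorem norm_wd (u v : ℂ × ℂ) : ‖wd u v‖ ≤ 2 * (‖u‖ * ‖v‖) := by
  unfold wd
  refine le_trans (norm_sub_le _ _) ?_
  rw [norm_mul, norm_mul, two_mul]
  exact add_le_add
    (mul_le_mul (norm_fst_le u) (norm_snd_le v) (norm_nonneg _) (norm_nonneg _))
    (mul_le_mul (norm_snd_le u) (norm_fst_le v) (norm_nonneg _) (norm_nonneg _))

theorem cd_nonneg (u v : ℂ × ℂ) : 0 ≤ cd u v := by unfold cd; positivity

theorem cd_le_two (u v : ℂ × ℂ) : cd u v ≤ 2 := by
  unfold cd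
  exact div_le_of_le_mul₀ (by positivity) (by norm_num) (norm_wd u v)

theorem cd_pos {u v : ℂ × ℂ} (hu : u ≠ 0) (hv : v ≠ 0) (h : wd u v ≠ 0) : 0 < cd u v := by
  unfold cd
  have h1 := norm_pos_iff.2 hu
  have h2 := norm_pos_iff.2 hv
  have h3 := norm_pos_iff.2 h
  positivity

theorem zeros_finite {d : ℕ} (hd : 1 ≤ d) (g : RatMap d) (n : ℕ) (y : ℂ × ℂ) (hy : y ≠ 0) :
    {x : ℂ | wd (g.F^[n] (x, 1)) y = 0}.Finite := by
  obtain ⟨A, hA, hAd, hval⟩ := F_wd_poly (Nat.one_le_pow n d hd) (pw hd g n) y hy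
  refine Set.Finite.subset (A.roots.toFinset.finite_toSet) fun x hx => ?_
  rw [Finset.mem_coe, Multiset.mem_toFinset, mem_roots hA, IsRoot.def,
    ← hev_one _ A hAd, hval, pw_F]
  exact hx

theorem exists_wd_ne {d : ℕ} (hd : 1 ≤ d) (g : RatMap d) (n : ℕ) (y : ℂ × ℂ) (hy : y ≠ 0) :
    ∃ w, wd (g.F^[n] w) y ≠ 0 := by
  obtain ⟨x, hx⟩ := (zeros_finite hd g n y hy).infinite_compl.nonempty
  exact ⟨(x, 1), hx⟩

theorem cont_hev (D : ℕ) (A : ℂ[X]) : Continuous fun w : ℂ × ℂ => hev D A w := by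
  unfold hev
  fun_prop

theorem cont_F {d : ℕ} (g : RatMap d) : Continuous g.F := by
  unfold RatMap.F
  exact (cont_hev d g.P).prodMk (cont_hev d g.Q)

theorem loj_pow {d : ℕ} (hd : 1 ≤ d) (h4 : T_LJ0) (g : RatMap d) (r : ℕ) :
    Loj (d ^ r) (d ^ r) (g.F^[r]) := by
  rw [it_F hd g r]
  refine h4 (d ^ r) _ _ (Nat.one_le_pow r d hd) (pf_IT d hd g r).1 (pf_IT d hd g r).2.1 ?_ ?_
  · intro w hw
    have h := Fit_ne hd g r w hw
    rw [it_F hd g r] at h
    exact h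
  · intro z hz
    obtain ⟨w, hw⟩ := exists_wd_ne hd g r z hz
    rw [it_F hd g r] at hw
    exact ⟨w, hw⟩

/-- pointwise bound -/
theorem log_bound {c : ℝ} (hc : 0 < c) {y t : ℝ} (hy2 : y ≤ 2) (ht : 0 < t) {m : ℕ}
    (h : c * t ^ m ≤ y) : |Real.log y| ≤ Real.log 2 + |Real.log c| + m * |Real.log t| := by
  have hpos : 0 < c * t ^ m := by positivity
  have hy : 0 < y := lt_of_lt_of_le hpos h
  have h1 : Real.log (c * t ^ m) ≤ Real.log y := Real.log_le_log hpos h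
  rw [Real.log_mul hc.ne' (by positivity), Real.log_pow] at h1
  have h2 : Real.log y ≤ Real.log 2 := Real.log_le_log hy hy2
  have h3 := neg_abs_le (Real.log c)
  have h4 := neg_abs_le (Real.log t)
  have h5 : (0 : ℝ) ≤ Real.log 2 := Real.log_nonneg (by norm_num)
  have h6 : -((m : ℝ) * |Real.log t|) ≤ m * Real.log t := by
    have : (0 : ℝ) ≤ m := Nat.cast_nonneg m
    nlinarith
  have h7 : (0 : ℝ) ≤ m * |Real.log t| := by positivity
  have h8 := abs_nonneg (Real.log c)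
  rw [abs_le]
  constructor <;> linarith

theorem meas_log (F : ℂ × ℂ → ℂ × ℂ) (hF : Continuous F) (y : ℂ × ℂ) :
    Measurable fun x : ℂ => ENNReal.ofReal |Real.log (cd (F (x, 1)) y)| := by
  unfold cd wd
  have h1 : Measurable fun x : ℂ => F (x, 1) := (hF.comp (by fun_prop)).measurable
  have h2 := h1.fst
  have h3 := h1.snd
  have h4 := h1.norm
  fun_prop

theorem geom_bound {q : ℝ} (h0 : 0 ≤ q) (h1 : q < 1) (j : ℕ) :
    ((j : ℝ) + 1) * q ^ j ≤ 1 / (1 - q) := by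
  have h2 : ((j : ℝ) + 1) * q ^ j ≤ ∑ i ∈ Finset.range (j + 1), q ^ i := by
    have h3 : ∑ i ∈ Finset.range (j + 1), q ^ j ≤ ∑ i ∈ Finset.range (j + 1), q ^ i := by
      refine Finset.sum_le_sum fun i hi => ?_
      exact pow_le_pow_of_le_one h0 h1.le (Nat.lt_succ_iff.1 (Finset.mem_range.1 hi))
    rw [Finset.sum_const, Finset.card_range, nsmul_eq_mul] at h3
    push_cast at h3
    exact h3
  refine le_trans h2 ?_
  rw [geom_sum_eq h1.ne, le_div_iff₀ (by linarith)]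
  have h4 : (q ^ (j + 1) - 1) / (q - 1) * (1 - q) = 1 - q ^ (j + 1) := by
    have : q - 1 ≠ 0 := by linarith
    field_simp
    ring
  rw [h4]
  have : 0 ≤ q ^ (j + 1) := pow_nonneg h0 _
  linarith

theorem pf_LOG (h3 : T_NTR) (h4 : T_LJ0) (h5 : T_LJ1) (h6 : T_REC) : T_LOG := by
  intro d hd g hg
  have hd1 : 1 ≤ d := by omega
  have hdr : (2 : ℝ) ≤ d := by exact_mod_cast hd
  have hd3 : (8 : ℝ) ≤ (d : ℝ) ^ 3 := by
    have : (2 : ℝ) ^ 3 ≤ (d : ℝ) ^ 3 := pow_le_pow_left₀ (by norm_num) hdr 3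
    linarith
  have hd3n : 8 ≤ d ^ 3 := by exact_mod_cast hd3
  have hcast : ((d ^ 3 - 1 : ℕ) : ℝ) = (d : ℝ) ^ 3 - 1 := by
    rw [Nat.cast_sub (by omega)]
    push_cast
    ring
  -- the exponent
  obtain ⟨κ, hκ0, hκ3⟩ : ∃ κ : ℝ, 0 ≤ κ ∧ κ ^ 3 = (d : ℝ) ^ 3 - 1 / 2 := by
    refine ⟨((d : ℝ) ^ 3 - 1 / 2) ^ ((1 : ℝ) / 3), Real.rpow_nonneg (by linarith) _, ?_⟩
    rw [← Real.rpow_natCast, ← Real.rpow_mul (by linarith)]
    norm_num
  have hκ1 : 1 ≤ κ := by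
    by_contra hlt
    rw [not_le] at hlt
    have : κ ^ 3 ≤ 1 := pow_le_one₀ hκ0 hlt.le
    linarith
  have hκd : κ < d := by
    by_contra hge
    rw [not_lt] at hge
    have : (d : ℝ) ^ 3 ≤ κ ^ 3 := pow_le_pow_left₀ (by linarith) hge 3
    linarith
  refine ⟨κ, hκ1, hκd, fun R => ?_⟩
  -- the third iterate
  have hL : Loj (d ^ 3) (d ^ 3 - 1) (g.F^[3]) := by
    have hN := h3 d hd g hg
    have hit := it_F hd1 g 3
    rw [hit] at hN ⊢
    refine h5 (d ^ 3) _ _ (by omega) (pf_IT d hd1 g 3).1 (pf_IT d hd1 g 3).2.1 ?_ ?_ hN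
    · intro w hw
      have h := Fit_ne hd1 g 3 w hw
      rw [hit] at h
      exact h
    · intro z hz
      obtain ⟨w, hw⟩ := exists_wd_ne hd1 g 3 z hz
      rw [hit] at hw
      exact ⟨w, hw⟩
  have hcF : Continuous g.F := cont_F g
  obtain ⟨C0, hC0, hR⟩ := h6 (d ^ 3) (d ^ 3 - 1) (g.F^[3]) (by omega) (by omega)
    (hcF.iterate 3) (fun w hw => Fit_ne hd1 g 3 w hw) hL R
  -- the constants for the remainders
  choose c hc hx using fun r => loj_pow hd1 h4 g r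
  set V : ℝ := (volume (Metric.ball (0 : ℂ) R)).toReal with hV
  have hVt : volume (Metric.ball (0 : ℂ) R) = ENNReal.ofReal V := by
    rw [hV, ENNReal.ofReal_toReal]
    exact (Metric.isBounded_ball.measure_lt_top).ne
  have hV0 : 0 ≤ V := ENNReal.toReal_nonneg
  have hlog2 : (0 : ℝ) ≤ Real.log 2 := Real.log_nonneg (by norm_num)
  set q : ℝ := ((d : ℝ) ^ 3 - 1) / ((d : ℝ) ^ 3 - 1 / 2) with hq
  have hq0 : 0 ≤ q := div_nonneg (by linarith) (by linarith)
  have hq1 : q < 1 := by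
    rw [hq, div_lt_one (by linarith)]
    linarith
  let K : ℕ → ℝ := fun r => (Real.log 2 + |Real.log (c r)|) * V +
    (d ^ r : ℕ) * ((d ^ r : ℕ) * (C0 * (1 / (1 - q))))
  have hK0 : ∀ r, 0 ≤ K r := by
    intro r
    have h1 : (0 : ℝ) ≤ 1 / (1 - q) := by
      have : 0 < 1 - q := by linarith
      positivity
    have h2 := abs_nonneg (Real.log (c r))
    have h7 : (0 : ℝ) ≤ ((d ^ r : ℕ) : ℝ) := Nat.cast_nonneg _
    change 0 ≤ (Real.log 2 + |Real.log (c r)|) * V + _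
    have h8 : 0 ≤ (Real.log 2 + |Real.log (c r)|) * V := mul_nonneg (by linarith) hV0
    have h9 : 0 ≤ ((d ^ r : ℕ) : ℝ) * ((d ^ r : ℕ) * (C0 * (1 / (1 - q)))) :=
      mul_nonneg h7 (mul_nonneg h7 (mul_nonneg hC0 h1))
    linarith
  refine ⟨K 0 + K 1 + K 2, by linarith [hK0 0, hK0 1, hK0 2], fun n z hz => ?_⟩
  obtain ⟨j, r, hr, hn⟩ : ∃ j r, r < 3 ∧ n = r + 3 * j :=
    ⟨n / 3, n % 3, Nat.mod_lt _ (by norm_num), by omega⟩
  have hKr : K r ≤ K 0 + K 1 + K 2 := by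
    have a0 := hK0 0
    have a1 := hK0 1
    have a2 := hK0 2
    interval_cases r <;> linarith
  obtain ⟨x, hx0, hxi⟩ := hx r z hz
  have hiter : ∀ w, g.F^[n] w = g.F^[r] ((g.F^[3])^[j] w) := by
    intro w
    rw [hn, Function.iterate_add_apply, Function.iterate_mul]
  have hH : ∀ w, (g.F^[3])^[j] w = g.F^[3 * j] w := by
    intro w
    rw [Function.iterate_mul]
  -- pointwise bound almost everywhere
  have hae : ∀ᵐ t : ℂ ∂(volume.restrict (Metric.ball (0 : ℂ) R)),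
      ENNReal.ofReal |Real.log (cd (g.F^[n] (t, 1)) z)| ≤
        ENNReal.ofReal (Real.log 2 + |Real.log (c r)|) + ENNReal.ofReal (d ^ r : ℕ) *
          ∑ i, ENNReal.ofReal |Real.log (cd ((g.F^[3])^[j] (t, 1)) (x i))| := by
    have hfin : (⋃ i, {t : ℂ | wd (g.F^[3 * j] (t, 1)) (x i) = 0}).Finite :=
      Set.finite_iUnion fun i => zeros_finite hd1 g (3 * j) (x i) (hx0 i)
    have h7 : ∀ᵐ t : ℂ ∂(volume.restrict (Metric.ball (0 : ℂ) R)),
        t ∉ ⋃ i, {t : ℂ | wd (g.F^[3 * j] (t, 1)) (x i) = 0} := by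
      refine ae_restrict_of_ae ?_
      exact measure_eq_zero_iff_ae_notMem.1 (hfin.measure_zero volume)
    filter_upwards [h7] with t ht
    have ht' : ∀ i, wd (g.F^[3 * j] (t, 1)) (x i) ≠ 0 := by
      intro i h0
      exact ht (Set.mem_iUnion.2 ⟨i, h0⟩)
    have hw0 : (g.F^[3])^[j] (t, 1) ≠ 0 := by
      rw [hH]
      exact Fit_ne hd1 g _ _ (fun h => one_ne_zero (congrArg Prod.snd h))
    obtain ⟨i, hi⟩ := hxi _ hw0
    rw [← hiter] at hi
    have htp : 0 < cd ((g.F^[3])^[j] (t, 1)) (x i) := by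
      refine cd_pos hw0 (hx0 i) ?_
      rw [hH]
      exact ht' i
    have hb := log_bound (hc r) (cd_le_two _ _) htp hi
    refine le_trans (ENNReal.ofReal_le_ofReal hb) ?_
    rw [ENNReal.ofReal_add (by positivity) (by positivity),
      ENNReal.ofReal_mul (Nat.cast_nonneg _)]
    refine add_le_add le_rfl (mul_le_mul_right ?_ _)
    exact Finset.single_le_sum
      (f := fun i => ENNReal.ofReal |Real.log (cd ((g.F^[3])^[j] (t, 1)) (x i))|)
      (fun _ _ => zero_le) (Finset.mem_univ i)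
  refine le_trans (lintegral_mono_ae hae) ?_
  rw [lintegral_add_left measurable_const, lintegral_const, Measure.restrict_apply_univ,
    lintegral_const_mul' _ _ ENNReal.ofReal_ne_top, lintegral_finsetSum _
      (fun i _ => meas_log _ ((hcF.iterate 3).iterate j) (x i)), hVt]
  have hsum : ∑ i : Fin (d ^ r), ∫⁻ t in Metric.ball (0 : ℂ) R,
      ENNReal.ofReal |Real.log (cd ((g.F^[3])^[j] (t, 1)) (x i))| ≤
      ∑ _i : Fin (d ^ r), ENNReal.ofReal (C0 * (1 / (1 - q)) * κ ^ (3 * j)) := by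
    refine Finset.sum_le_sum fun i _ => ?_
    refine le_trans (hR j (x i) (hx0 i)) (ENNReal.ofReal_le_ofReal ?_)
    rw [hcast, mul_assoc, mul_assoc]
    refine mul_le_mul_of_nonneg_left ?_ hC0
    rw [pow_mul, hκ3]
    have hg := geom_bound hq0 hq1 j
    have hpos : 0 < ((d : ℝ) ^ 3 - 1 / 2) ^ j := pow_pos (by linarith) j
    have h8 : ((d : ℝ) ^ 3 - 1) ^ j = q ^ j * ((d : ℝ) ^ 3 - 1 / 2) ^ j := by
      rw [← mul_pow, hq, div_mul_cancel₀ _ (by linarith)]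
    rw [h8, ← mul_assoc]
    exact mul_le_mul_of_nonneg_right hg hpos.le
  rw [Finset.sum_const, Finset.card_univ, Fintype.card_fin, nsmul_eq_mul] at hsum
  have hkj : (1 : ℝ) ≤ κ ^ n := one_le_pow₀ hκ1
  have hkn : κ ^ (3 * j) ≤ κ ^ n := pow_le_pow_right₀ hκ1 (by omega)
  have hq' : 0 < 1 - q := by linarith
  have hA0 : 0 ≤ Real.log 2 + |Real.log (c r)| := add_nonneg hlog2 (abs_nonneg _)
  have hKdef : K r = (Real.log 2 + |Real.log (c r)|) * V +
    (d ^ r : ℕ) * ((d ^ r : ℕ) * (C0 * (1 / (1 - q)))) := rfl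
  have hB0 : 0 ≤ C0 * (1 / (1 - q)) := by positivity
  generalize Real.log 2 + |Real.log (c r)| = A at hA0 hKdef ⊢
  generalize C0 * (1 / (1 - q)) = B at hB0 hKdef hsum
  have hS0 : 0 ≤ B * κ ^ (3 * j) := mul_nonneg hB0 (pow_nonneg hκ0 _)
  have hD0 : (0 : ℝ) ≤ ((d ^ r : ℕ) : ℝ) := Nat.cast_nonneg _
  calc ENNReal.ofReal A * ENNReal.ofReal V +
        ENNReal.ofReal (d ^ r : ℕ) * ∑ i : Fin (d ^ r), ∫⁻ t in Metric.ball (0 : ℂ) R,
          ENNReal.ofReal |Real.log (cd ((g.F^[3])^[j] (t, 1)) (x i))|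
      ≤ ENNReal.ofReal A * ENNReal.ofReal V +
        ENNReal.ofReal (d ^ r : ℕ) * (((d ^ r : ℕ) : ℝ≥0∞) *
          ENNReal.ofReal (B * κ ^ (3 * j))) :=
        add_le_add le_rfl (mul_le_mul_right hsum _)
    _ = ENNReal.ofReal (A * V +
        (d ^ r : ℕ) * ((d ^ r : ℕ) * (B * κ ^ (3 * j)))) := by
        have e1 : ((d ^ r : ℕ) : ℝ≥0∞) * ENNReal.ofReal (B * κ ^ (3 * j)) =
            ENNReal.ofReal (((d ^ r : ℕ) : ℝ) * (B * κ ^ (3 * j))) := by
          rw [ENNReal.ofReal_mul hD0, ENNReal.ofReal_natCast]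
        rw [e1, ← ENNReal.ofReal_mul hA0, ← ENNReal.ofReal_mul hD0,
          ← ENNReal.ofReal_add (mul_nonneg hA0 hV0) (mul_nonneg hD0 (mul_nonneg hD0 hS0))]
    _ ≤ ENNReal.ofReal ((K 0 + K 1 + K 2) * κ ^ n) := by
        refine ENNReal.ofReal_le_ofReal ?_
        refine le_trans ?_ (mul_le_mul_of_nonneg_right hKr (by positivity))
        rw [hKdef, add_mul (A * V)]
        refine add_le_add ?_ ?_
        · exact le_mul_of_one_le_right (mul_nonneg hA0 hV0) hkj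
        · rw [mul_assoc, mul_assoc]
          refine mul_le_mul_of_nonneg_left ?_ hD0
          refine mul_le_mul_of_nonneg_left ?_ hD0
          exact mul_le_mul_of_nonneg_left hkn hB0

end Pool.Agent.H67.UDA
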