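import Pool.Agent.H67.UDA.IT

/-!
# Row NTR of the board uda_modules: no totally ramified value (helper67)
-/

set_option autoImplicit false

open Polynomial MeasureTheory Filter Topology Set
open scoped OnePoint ComplexConjugate ComplexOrder Laplacian ENNReal

open Pool.Agent.H83.UE

namespace Pool.Agent.H67.UDA

theorem wd_symm {u v : ℂ × ℂ} (h : wd u v = 0) : wd v u = 0 := by
  unfold wd at h ⊢
  linear_combination -h

theorem wd_trans {u v w : ℂ × ℂ} (hv : v ≠ 0) (h1 : wd u v = 0) (h2 : wd v w = 0) :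
    wd u w = 0 := by
  have e1 : v.2 * wd u w = 0 := by
    unfold wd at h1 h2 ⊢
    linear_combination w.2 * h1 + u.2 * h2
  have e2 : v.1 * wd u w = 0 := by
    unfold wd at h1 h2 ⊢
    linear_combination w.1 * h1 + u.1 * h2
  rcases mul_eq_zero.1 e1 with h | h
  · rcases mul_eq_zero.1 e2 with h' | h'
    · exact absurd (Prod.ext h' h) hv
    · exact h'
  · exact h

theorem wd_par {u v : ℂ × ℂ} (hu : u ≠ 0) (hv : v ≠ 0) (h : wd u v = 0) :
    ∃ t : ℂ, t ≠ 0 ∧ u = (t * v.1, t * v.2) := by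
  unfold wd at h
  by_cases hv2 : v.2 = 0
  · have hv1 : v.1 ≠ 0 := fun h3 => hv (Prod.ext h3 hv2)
    rw [hv2, mul_zero, zero_sub, neg_eq_zero] at h
    have hu2 : u.2 = 0 := (mul_eq_zero.1 h).resolve_right hv1
    have hu1 : u.1 ≠ 0 := fun h3 => hu (Prod.ext h3 hu2)
    refine ⟨u.1 / v.1, div_ne_zero hu1 hv1, Prod.ext ?_ ?_⟩
    · change u.1 = u.1 / v.1 * v.1
      rw [div_mul_cancel₀ _ hv1]
    · change u.2 = u.1 / v.1 * v.2
      rw [hu2, hv2, mul_zero]
  · have h1 : u.1 = u.2 / v.2 * v.1 := by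
      field_simp
      linear_combination h
    have h2 : u.2 = u.2 / v.2 * v.2 := by rw [div_mul_cancel₀ _ hv2]
    refine ⟨u.2 / v.2, fun h0 => hu (Prod.ext ?_ ?_), Prod.ext h1 h2⟩
    · rw [h1, h0, zero_mul]; rfl
    · rw [h2, h0, zero_mul]; rfl

theorem F_smul {d : ℕ} (g : RatMap d) (c : ℂ) (v : ℂ × ℂ) :
    g.F (c * v.1, c * v.2) = (c ^ d * (g.F v).1, c ^ d * (g.F v).2) := by
  unfold RatMap.F
  rw [hev_smul, hev_smul]

theorem wd_F {d : ℕ} (g : RatMap d) {u v : ℂ × ℂ} (hu : u ≠ 0) (hv : v ≠ 0)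
    (h : wd u v = 0) : wd (g.F u) (g.F v) = 0 := by
  obtain ⟨t, _, rfl⟩ := wd_par hu hv h
  rw [F_smul]
  unfold wd
  ring

theorem F_wd_poly {d : ℕ} (hd : 1 ≤ d) (g : RatMap d) (y : ℂ × ℂ) (hy : y ≠ 0) :
    ∃ A : ℂ[X], A ≠ 0 ∧ A.natDegree ≤ d ∧ ∀ w, hev d A w = wd (g.F w) y := by
  have hval : ∀ w, hev d (C y.2 * g.P - C y.1 * g.Q) w = wd (g.F w) y := by
    intro w
    unfold wd RatMap.F hev
    rw [Finset.sum_mul, Finset.sum_mul, ← Finset.sum_sub_distrib]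
    refine Finset.sum_congr rfl fun i _ => ?_
    rw [coeff_sub, coeff_C_mul, coeff_C_mul]
    ring
  refine ⟨C y.2 * g.P - C y.1 * g.Q, fun h0 => ?_, ?_, hval⟩
  · -- all values of `F` would be parallel to `y`
    have hp : ∀ w, wd (g.F w) y = 0 := by
      intro w
      rw [← hval w, h0]
      unfold hev
      simp
    have hPQ : ∀ u v, u ≠ 0 → v ≠ 0 → wd (g.F u) (g.F v) = 0 := fun u v _ _ =>
      wd_trans hy (hp u) (wd_symm (hp v))
    have hu0 : ((1, 0) : ℂ × ℂ) ≠ 0 := fun h => one_ne_zero (congrArg Prod.fst h)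
    -- use the polynomial identity
    have hPQ' : C y.2 * g.P = C y.1 * g.Q := sub_eq_zero.1 h0
    obtain ⟨a, b, hab⟩ := g.coprime
    by_cases hy2 : y.2 = 0
    · have hy1 : y.1 ≠ 0 := fun h3 => hy (Prod.ext h3 hy2)
      rw [hy2, C_0, zero_mul] at hPQ'
      have hQ : g.Q = 0 := (mul_eq_zero.1 hPQ'.symm).resolve_left (C_ne_zero.2 hy1)
      rw [hQ, mul_zero, add_zero] at hab
      have hP : g.P.natDegree = 0 :=
        natDegree_eq_zero_of_isUnit (IsUnit.of_mul_eq_one a (by rw [mul_comm]; exact hab))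
      rcases g.deg with h | h
      · omega
      · rw [hQ, natDegree_zero] at h
        omega
    · have hP : g.P = C (y.1 / y.2) * g.Q := by
        have h3 : C y.2 * g.P = C y.2 * (C (y.1 / y.2) * g.Q) := by
          rw [hPQ', ← mul_assoc, ← C_mul, mul_div_cancel₀ _ hy2]
        exact mul_left_cancel₀ (C_ne_zero.2 hy2) h3
      have hQ : IsUnit g.Q := by
        refine IsUnit.of_mul_eq_one (a * C (y.1 / y.2) + b) ?_
        rw [← hab, hP]
        ring
      have hQ0 : g.Q.natDegree = 0 := natDegree_eq_zero_of_isUnit hQ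
      have hP0 : g.P.natDegree = 0 := by
        have := natDegree_C_mul_le (y.1 / y.2) g.Q
        rw [← hP] at this
        omega
      rcases g.deg with h | h <;> omega
  · refine le_trans (natDegree_sub_le _ _) (max_le ?_ ?_)
    · exact le_trans (natDegree_C_mul_le _ _) g.degP
    · exact le_trans (natDegree_C_mul_le _ _) g.degQ

theorem F_surj {d : ℕ} (hd : 1 ≤ d) (hB : T_BF) (g : RatMap d) (y : ℂ × ℂ) (hy : y ≠ 0) :
    ∃ w, w ≠ 0 ∧ wd (g.F w) y = 0 := by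
  obtain ⟨A, hA, hAd, hval⟩ := F_wd_poly hd g y hy
  obtain ⟨c, _, x, hx, hfac⟩ := hB d A hA hAd
  refine ⟨x ⟨0, hd⟩, fun h0 => ?_, ?_⟩
  · have := hx ⟨0, hd⟩
    rw [h0, norm_zero] at this
    exact zero_ne_one this
  · rw [← hval, hfac, Finset.prod_eq_zero (Finset.mem_univ (⟨0, hd⟩ : Fin d)), mul_zero]
    unfold wd
    ring

/-- if the only preimage of the line of `y` is the line of `x`, the form is a power -/
theorem F_pow {d : ℕ} (hd : 1 ≤ d) (hB : T_BF) (g : RatMap d) (y x : ℂ × ℂ) (hy : y ≠ 0)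
    (hx : x ≠ 0) (h : ∀ w, w ≠ 0 → wd (g.F w) y = 0 → wd w x = 0) :
    ∃ a : ℂ, a ≠ 0 ∧ ∀ w, wd (g.F w) y = a * wd w x ^ d := by
  obtain ⟨A, hA, hAd, hval⟩ := F_wd_poly hd g y hy
  obtain ⟨c, hc, v, hv, hfac⟩ := hB d A hA hAd
  have hv0 : ∀ i, v i ≠ 0 := by
    intro i h0
    have := hv i
    rw [h0, norm_zero] at this
    exact zero_ne_one this
  have h1 : ∀ i, ∃ t : ℂ, t ≠ 0 ∧ v i = (t * x.1, t * x.2) := by
    intro i
    refine wd_par (hv0 i) hx (h _ (hv0 i) ?_)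
    rw [← hval, hfac, Finset.prod_eq_zero (Finset.mem_univ i), mul_zero]
    unfold wd
    ring
  choose t ht hvt using h1
  refine ⟨c * ∏ i, t i, mul_ne_zero hc (Finset.prod_ne_zero_iff.2 fun i _ => ht i), fun w => ?_⟩
  rw [← hval, hfac]
  have h2 : ∀ i, wd w (v i) = t i * wd w x := by
    intro i
    rw [hvt i]
    unfold wd
    ring
  rw [Finset.prod_congr rfl fun i _ => h2 i, Finset.prod_mul_distrib, Finset.prod_const,
    Finset.card_univ, Fintype.card_fin, mul_assoc]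

open Classical in
/-- the point of the sphere with given homogeneous coordinates -/
noncomputable def pt (w : ℂ × ℂ) : OnePoint ℂ := if w.2 = 0 then ∞ else ((w.1 / w.2 : ℂ) : OnePoint ℂ)

theorem pt_eq {u v : ℂ × ℂ} (hu : u ≠ 0) (hv : v ≠ 0) : pt u = pt v ↔ wd u v = 0 := by
  unfold pt
  by_cases hu2 : u.2 = 0
  · have hu1 : u.1 ≠ 0 := fun h3 => hu (Prod.ext h3 hu2)
    by_cases hv2 : v.2 = 0
    · rw [if_pos hu2, if_pos hv2]
      unfold wd
      rw [hu2, hv2]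
      simp
    · rw [if_pos hu2, if_neg hv2]
      unfold wd
      rw [hu2, zero_mul, sub_zero]
      constructor
      · intro h
        exact absurd h (OnePoint.infty_ne_coe _)
      · intro h
        exact absurd h (mul_ne_zero hu1 hv2)
  · by_cases hv2 : v.2 = 0
    · have hv1 : v.1 ≠ 0 := fun h3 => hv (Prod.ext h3 hv2)
      rw [if_neg hu2, if_pos hv2]
      unfold wd
      rw [hv2, mul_zero, zero_sub, neg_eq_zero]
      constructor
      · intro h
        exact absurd h (OnePoint.coe_ne_infty _)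
      · intro h
        exact absurd h (mul_ne_zero hu2 hv1)
    · rw [if_neg hu2, if_neg hv2, OnePoint.coe_eq_coe, div_eq_div_iff hu2 hv2]
      unfold wd
      constructor
      · intro h
        linear_combination h
      · intro h
        linear_combination h

theorem pt_surj (p : OnePoint ℂ) : ∃ w : ℂ × ℂ, w ≠ 0 ∧ pt w = p := by
  induction p using OnePoint.rec with
  | infty =>
    refine ⟨(1, 0), fun h => one_ne_zero (congrArg Prod.fst h), ?_⟩
    unfold pt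
    rw [if_pos rfl]
  | coe y =>
    refine ⟨(y, 1), fun h => one_ne_zero (congrArg Prod.snd h), ?_⟩
    unfold pt
    rw [if_neg one_ne_zero]
    simp

theorem toFun_pt {d : ℕ} (_hd : 1 ≤ d) (g : RatMap d) (w : ℂ × ℂ) (hw : w ≠ 0) :
    g.toFun (pt w) = pt (g.F w) := by
  by_cases hw2 : w.2 = 0
  · have hw1 : w.1 ≠ 0 := fun h3 => hw (Prod.ext h3 hw2)
    have h0 : w = (w.1, 0) := Prod.ext rfl hw2
    have h1 : pt w = (∞ : OnePoint ℂ) := by
      unfold pt
      rw [if_pos hw2]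
    have h2 : g.F w = (g.P.coeff d * w.1 ^ d, g.Q.coeff d * w.1 ^ d) := by
      conv_lhs => rw [h0]
      unfold RatMap.F
      rw [hev_zero, hev_zero]
    rw [h1, h2]
    change (if g.Q.coeff d = 0 then (∞ : OnePoint ℂ) else ((g.P.coeff d / g.Q.coeff d : ℂ) : OnePoint ℂ)) = _
    unfold pt
    have h3 : w.1 ^ d ≠ 0 := pow_ne_zero d hw1
    by_cases hq : g.Q.coeff d = 0
    · rw [if_pos hq, if_pos (by change g.Q.coeff d * w.1 ^ d = 0; rw [hq, zero_mul])]
    · rw [if_neg hq, if_neg (mul_ne_zero hq h3)]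
      change _ = ((g.P.coeff d * w.1 ^ d / (g.Q.coeff d * w.1 ^ d) : ℂ) : OnePoint ℂ)
      rw [mul_div_mul_right _ _ h3]
  · have h1 : pt w = ((w.1 / w.2 : ℂ) : OnePoint ℂ) := by
      unfold pt
      rw [if_neg hw2]
    have h2 : g.F w = (w.2 ^ d * g.P.eval (w.1 / w.2), w.2 ^ d * g.Q.eval (w.1 / w.2)) := by
      unfold RatMap.F
      rw [hev_ne _ _ g.degP w hw2, hev_ne _ _ g.degQ w hw2]
    rw [h1, h2]
    change (if g.Q.eval (w.1 / w.2) = 0 then (∞ : OnePoint ℂ) else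
      ((g.P.eval (w.1 / w.2) / g.Q.eval (w.1 / w.2) : ℂ) : OnePoint ℂ)) = _
    unfold pt
    have h3 : w.2 ^ d ≠ 0 := pow_ne_zero d hw2
    by_cases hq : g.Q.eval (w.1 / w.2) = 0
    · rw [if_pos hq, if_pos (by change w.2 ^ d * g.Q.eval (w.1 / w.2) = 0; rw [hq, mul_zero])]
    · rw [if_neg hq, if_neg (mul_ne_zero h3 hq)]
      change _ = ((w.2 ^ d * g.P.eval (w.1 / w.2) / (w.2 ^ d * g.Q.eval (w.1 / w.2)) : ℂ) :
        OnePoint ℂ)
      rw [mul_div_mul_left _ _ h3]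

/-- a binomial with nonzero coefficients is not the `d`-th power of a nonconstant affine
polynomial without root at zero -/
theorem no_pow {d : ℕ} (hd : 2 ≤ d) (A B a p q : ℂ) (ha : a ≠ 0) (hp : p ≠ 0)
    (hq : q ≠ 0) (h : ∀ t : ℂ, A * t ^ d + B = a * (p + q * t) ^ d) : False := by
  have h1 : (C A * X ^ d + C B : ℂ[X]) = C a * (C p + C q * X) ^ d := by
    refine Polynomial.funext fun t => ?_
    simp only [eval_add, eval_mul, eval_C, eval_pow, eval_X]
    exact h t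
  have h2 := congrArg (fun P : ℂ[X] => (derivative P).eval 0) h1
  simp only [derivative_add, derivative_mul, derivative_C, derivative_pow,
    derivative_X, zero_mul, zero_add, add_zero, mul_one, eval_mul, eval_C, eval_pow, eval_X,
    eval_add, mul_zero] at h2
  have h3 : (0 : ℂ) ^ (d - 1) = 0 := zero_pow (by omega)
  rw [h3, mul_zero, mul_zero] at h2
  have h4 : (d : ℂ) ≠ 0 := Nat.cast_ne_zero.2 (by omega)
  exact (mul_ne_zero ha (mul_ne_zero (mul_ne_zero h4 (pow_ne_zero _ hp)) hq)) h2.symm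

theorem pf_NTR (h3 : T_BF) : T_NTR := by
  intro d hd g hg z x hz hx c hc
  have hd1 : 1 ≤ d := by omega
  have hF0 : ∀ w, w ≠ 0 → g.F w ≠ 0 := fun w hw => F_ne hd1 g w hw
  -- parallel vectors
  have hpar : ∀ u v, u ≠ 0 → v ≠ 0 → wd u v = 0 → wd (g.F u) (g.F v) = 0 :=
    fun u v hu hv h => wd_F g hu hv h
  have hit : ∀ w, g.F^[3] w = g.F (g.F (g.F w)) := fun w => rfl
  -- surjectivity
  have hsur : ∀ y, y ≠ 0 → ∃ w, w ≠ 0 ∧ wd (g.F w) y = 0 := fun y hy => F_surj hd1 h3 g y hy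
  -- `c ≠ 0`
  have hc0 : c ≠ 0 := by
    intro h0
    -- choose a line not parallel to `z` and a preimage of it
    obtain ⟨y, hy, hyz⟩ : ∃ y : ℂ × ℂ, y ≠ 0 ∧ wd y z ≠ 0 := by
      by_cases hz2 : z.2 = 0
      · have hz1 : z.1 ≠ 0 := fun h => hz (Prod.ext h hz2)
        refine ⟨(0, 1), fun h => one_ne_zero (congrArg Prod.snd h), ?_⟩
        unfold wd
        simpa using hz1
      · refine ⟨(1, 0), fun h => one_ne_zero (congrArg Prod.fst h), ?_⟩
        unfold wd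
        simpa using hz2
    obtain ⟨w1, hw1, h1⟩ := hsur y hy
    obtain ⟨w2, hw2, h2⟩ := hsur w1 hw1
    obtain ⟨w3, hw3, h4⟩ := hsur w2 hw2
    have e1 : wd (g.F (g.F w3)) (g.F w2) = 0 := hpar _ _ (hF0 _ hw3) hw2 h4
    have e2 : wd (g.F (g.F w3)) w1 = 0 := wd_trans (hF0 _ hw2) e1 h2
    have e3 : wd (g.F (g.F (g.F w3))) (g.F w1) = 0 := hpar _ _ (hF0 _ (hF0 _ hw3)) hw1 e2
    have e4 : wd (g.F (g.F (g.F w3))) y = 0 := wd_trans (hF0 _ hw1) e3 h1
    have e5 := hc w3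
    rw [h0, zero_mul, hit] at e5
    exact hyz (wd_trans (hF0 _ (hF0 _ (hF0 _ hw3))) (wd_symm e4) e5)
  -- the lines over `z`
  have hz3 : ∀ w, wd (g.F (g.F (g.F w))) z = 0 → wd w x = 0 := by
    intro w h
    have e := hc w
    rw [hit, h] at e
    have e2 : wd w x ^ d ^ 3 = 0 := (mul_eq_zero.1 e.symm).resolve_left hc0
    exact pow_eq_zero_iff (by positivity) |>.1 e2
  have hx2 : g.F x ≠ 0 := hF0 _ hx
  have hx1 : g.F (g.F x) ≠ 0 := hF0 _ hx2
  have hx0 : g.F (g.F (g.F x)) ≠ 0 := hF0 _ hx1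
  have hxz : wd (g.F (g.F (g.F x))) z = 0 := by
    have e := hc x
    rw [hit] at e
    rw [e]
    have : wd x x = 0 := by unfold wd; ring
    rw [this, zero_pow (by positivity), mul_zero]
  generalize hX2 : g.F x = x2 at hx2 hx1 hx0 hxz
  generalize hX1 : g.F x2 = x1 at hx1 hx0 hxz
  generalize hX0 : g.F x1 = x0 at hx0 hxz
  -- the unique preimages
  have p3 : ∀ w, w ≠ 0 → wd (g.F w) x2 = 0 → wd w x = 0 := by
    intro w hw h
    apply hz3
    have e1 := hpar _ _ (hF0 _ hw) hx2 h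
    rw [hX1] at e1
    have e2 := hpar _ _ (hF0 _ (hF0 _ hw)) hx1 e1
    rw [hX0] at e2
    exact wd_trans hx0 e2 hxz
  have p2 : ∀ w, w ≠ 0 → wd (g.F w) x1 = 0 → wd w x2 = 0 := by
    intro w hw h
    obtain ⟨v, hv, h1⟩ := hsur w hw
    have e1 := hpar _ _ (hF0 _ hv) hw h1
    have e2 : wd (g.F (g.F v)) x1 = 0 := wd_trans (hF0 _ hw) e1 h
    have e3 := hpar _ _ (hF0 _ (hF0 _ hv)) hx1 e2
    rw [hX0] at e3
    have e4 := hz3 v (wd_trans hx0 e3 hxz)
    have e5 := hpar _ _ hv hx e4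
    rw [hX2] at e5
    exact wd_trans (hF0 _ hv) (wd_symm h1) e5
  have p1 : ∀ w, w ≠ 0 → wd (g.F w) x0 = 0 → wd w x1 = 0 := by
    intro w hw h
    obtain ⟨v, hv, h1⟩ := hsur w hw
    obtain ⟨v', hv', h2⟩ := hsur v hv
    have e1 := hpar _ _ (hF0 _ hv') hv h2
    have e2 : wd (g.F (g.F v')) w = 0 := wd_trans (hF0 _ hv) e1 h1
    have e3 := hpar _ _ (hF0 _ (hF0 _ hv')) hw e2
    have e4 : wd (g.F (g.F (g.F v'))) z = 0 :=
      wd_trans hx0 (wd_trans (hF0 _ hw) e3 h) hxz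
    have e5 := hz3 v' e4
    have e6 := hpar _ _ hv' hx e5
    rw [hX2] at e6
    have e7 := hpar _ _ (hF0 _ hv') hx2 e6
    rw [hX1] at e7
    exact wd_trans (hF0 _ (hF0 _ hv')) (wd_symm e2) e7
  -- converse directions
  have q3 : ∀ w, w ≠ 0 → wd w x = 0 → wd (g.F w) x2 = 0 := by
    intro w hw h
    have e := hpar _ _ hw hx h
    rwa [hX2] at e
  have q2 : ∀ w, w ≠ 0 → wd w x2 = 0 → wd (g.F w) x1 = 0 := by
    intro w hw h
    have e := hpar _ _ hw hx2 h
    rwa [hX1] at e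
  have q1 : ∀ w, w ≠ 0 → wd w x1 = 0 → wd (g.F w) x0 = 0 := by
    intro w hw h
    have e := hpar _ _ hw hx1 h
    rwa [hX0] at e
  -- exceptional points
  have n12 : wd x1 x2 ≠ 0 := by
    intro h
    refine hg {pt x1} (Set.finite_singleton _) (Set.singleton_nonempty _) ?_
    ext p
    obtain ⟨w, hw, rfl⟩ := pt_surj p
    rw [Set.mem_preimage, Set.mem_singleton_iff, Set.mem_singleton_iff, toFun_pt hd1 g w hw,
      pt_eq (hF0 _ hw) hx1, pt_eq hw hx1]
    constructor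
    · intro h1
      exact wd_trans hx2 (p2 w hw h1) (wd_symm h)
    · intro h1
      exact q2 w hw (wd_trans hx1 h1 h)
  have n13 : wd x1 x ≠ 0 := by
    intro h
    refine hg {pt x1, pt x2} (Set.toFinite _) ⟨pt x1, Set.mem_insert _ _⟩ ?_
    ext p
    obtain ⟨w, hw, rfl⟩ := pt_surj p
    rw [Set.mem_preimage, Set.mem_insert_iff, Set.mem_singleton_iff, Set.mem_insert_iff,
      Set.mem_singleton_iff, toFun_pt hd1 g w hw,
      pt_eq (hF0 _ hw) hx1, pt_eq (hF0 _ hw) hx2, pt_eq hw hx1, pt_eq hw hx2]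
    constructor
    · rintro (h1 | h1)
      · exact Or.inr (p2 w hw h1)
      · exact Or.inl (wd_trans hx (p3 w hw h1) (wd_symm h))
    · rintro (h1 | h1)
      · exact Or.inr (q3 w hw (wd_trans hx1 h1 h))
      · exact Or.inl (q2 w hw h1)
  have n23 : wd x2 x ≠ 0 := by
    intro h
    apply n12
    have e := hpar _ _ hx2 hx h
    rwa [hX1, hX2] at e
  have n01 : wd x0 x1 ≠ 0 := by
    intro h
    exact n12 (p2 x1 hx1 (by rw [hX0]; exact h))
  have n02 : wd x0 x2 ≠ 0 := by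
    intro h
    exact n13 (p3 x1 hx1 (by rw [hX0]; exact h))
  -- the three powers
  obtain ⟨a1, ha1, f1⟩ := F_pow hd1 h3 g x0 x1 hx0 hx1 p1
  obtain ⟨a2, ha2, f2⟩ := F_pow hd1 h3 g x1 x2 hx1 hx2 p2
  obtain ⟨a3, ha3, f3⟩ := F_pow hd1 h3 g x2 x hx2 hx p3
  -- `wd x0 x1 • x2 = wd x2 x1 • x0 + wd x0 x2 • x1`
  have key : ∀ u : ℂ × ℂ, wd x0 x1 * wd u x2 = wd x2 x1 * wd u x0 + wd x0 x2 * wd u x1 := by
    intro u
    unfold wd
    ring
  refine no_pow hd (wd x2 x1 * a1 * (wd x2 x1) ^ d) (wd x0 x2 * a2 * (wd x1 x2) ^ d)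
    (wd x0 x1 * a3) (wd x1 x) (wd x2 x) (mul_ne_zero n01 ha3) n13 n23 fun t => ?_
  have e := key (g.F (x1.1 + t * x2.1, x1.2 + t * x2.2))
  rw [f1, f2, f3] at e
  have e1 : wd (x1.1 + t * x2.1, x1.2 + t * x2.2) x1 = t * wd x2 x1 := by
    unfold wd
    ring
  have e2 : wd (x1.1 + t * x2.1, x1.2 + t * x2.2) x2 = wd x1 x2 := by
    unfold wd
    ring
  have e3 : wd (x1.1 + t * x2.1, x1.2 + t * x2.2) x = wd x1 x + wd x2 x * t := by
    unfold wd
    ring
  rw [e1, e2, e3, mul_pow] at e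
  linear_combination -e

end Pool.Agent.H67.UDA
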